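import Mathlib

/-!
# Good sets of reals and the dichotomy `reversible or good`

If there is a good set of reals at all, then there is an `ℵ₁`-dense set of reals which is neither
reversible nor good.

Idea of the proof.  Let `B` be good.  Then `B' = B + ℚ` is increasing (in the sense of `Incr`
below).  Put `C = B' ∪ (-B')` and `A = (B' ∩ (-∞, 0)) ∪ (C ∩ (0, ∞))`.  The map `s ↦ q - s`
(`q` rational) shows that no interval of `C` is increasing, so `A` is not good.  A decreasing
bijection of `A` would either map an uncountable part of `B'` into `B'`, or it would map an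
interval of `B'` onto an interval of `C`; both are impossible.
-/

open Set

namespace Pool.Agent.Results.MP_50136b_lc.NeitherReversibleNorGood

/-- the well-ordered set `ω₁` -/
abbrev W1 : Type := (Cardinal.aleph 1).ord.ToType

/-- A set of reals is `ℵ₁`-dense if between any two of its points there are exactly `ℵ₁` of its
points. -/
def AlephOneDense (A : Set ℝ) : Prop :=
  ∀ a ∈ A, ∀ b ∈ A, a < b → Cardinal.mk {x : ℝ | x ∈ A ∧ a < x ∧ x < b} = Cardinal.aleph 1

/-- A set of reals is reversible if it is order-isomorphic to its reverse `{-r : r ∈ A}`. -/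
def Reversible (A : Set ℝ) : Prop := Nonempty (A ≃o {x : ℝ | ∃ r ∈ A, x = -r})

/-- A set of reals is good if it has a bijective enumeration `r ξ` (`ξ < ω₁`) such that for each
`n` and each sequence `a α` (`α < ω₁`) of `n`-element subsets of `ω₁` (given by their increasing
enumerations) there are `α < β` with `r (a α i) ≤ r (a β i)` for all `i < n`. -/
def Good (A : Set ℝ) : Prop :=
  ∃ r : W1 → ℝ, Function.Injective r ∧ Set.range r = A ∧
    ∀ (n : ℕ) (a : W1 → Fin n → W1), (∀ α, StrictMono (a α)) →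
      ∃ α β, α < β ∧ ∀ i, r (a α i) ≤ r (a β i)

/-- Increasing sets: in every uncountable family of `n`-tuples from the set two members are
comparable. -/
def Incr (B : Set ℝ) : Prop :=
  ∀ (J : Type) [Uncountable J] (n : ℕ) (t : J → Fin n → ℝ), (∀ j k, t j k ∈ B) →
    ∃ i j, i ≠ j ∧ ∀ k, t i k ≤ t j k

lemma W1_card : Cardinal.mk W1 = Cardinal.aleph 1 := Cardinal.mk_ord_toType _

lemma emb_eq (s : Finset W1) {m : ℕ} (h : s.card = m) (i : Fin s.card) (i' : Fin m)
    (hi : (i : ℕ) = i') : s.orderEmbOfFin rfl i = s.orderEmbOfFin h i' := by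
  subst h
  have : i = i' := Fin.ext hi
  rw [this]

lemma exists_inj (J : Type) [Uncountable J] : ∃ g : W1 → J, Function.Injective g := by
  have h : Cardinal.mk W1 ≤ Cardinal.mk J := by
    rw [W1_card, ← Cardinal.succ_aleph0, Order.succ_le_iff]
    exact Cardinal.aleph0_lt_mk
  obtain ⟨g⟩ := h
  exact ⟨g, g.injective⟩

lemma pigeon {J : Type} [Uncountable J] {K : Type} [Countable K] (f : J → K) :
    ∃ c, Uncountable (f ⁻¹' {c}) := by
  by_contra hcon
  push Not at hcon
  have h1 : ∀ c, (f ⁻¹' {c}).Countable := fun c => hcon c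
  have h2 : (⋃ c, f ⁻¹' {c}).Countable := countable_iUnion h1
  have h3 : (⋃ c, f ⁻¹' {c}) = (univ : Set J) := by
    ext j; simp
  rw [h3] at h2
  exact not_countable_univ_iff.2 inferInstance h2

lemma Good.incr {B : Set ℝ} (hB : Good B) : Incr B := by
  classical
  obtain ⟨r, hr, hrange, hg⟩ := hB
  intro J _ n t ht
  have hex : ∀ j k, ∃ ξ, r ξ = t j k := by
    intro j k
    have := ht j k
    rw [← hrange] at this
    exact this
  choose ξ hξ using hex
  let S : J → Finset W1 := fun j => Finset.univ.image (ξ j)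
  have hpos : ∀ j k, ∃ i : Fin (S j).card, (S j).orderEmbOfFin rfl i = ξ j k := by
    intro j k
    have h1 : ξ j k ∈ (S j : Set W1) := by simp [S]
    rw [← Finset.range_orderEmbOfFin (S j) rfl] at h1
    exact h1
  choose pos hpos' using hpos
  let pat : J → ℕ × (Fin n → ℕ) := fun j => ((S j).card, fun k => (pos j k : ℕ))
  obtain ⟨⟨m, p⟩, hunc⟩ := pigeon pat
  obtain ⟨g, hginj⟩ := exists_inj (pat ⁻¹' {(m, p)})
  have hm : ∀ α, (S (g α).1).card = m := fun α => congrArg Prod.fst (g α).2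
  have hp : ∀ α k, (pos (g α).1 k : ℕ) = p k := fun α k => by
    have := congrArg Prod.snd (g α).2
    exact congrFun this k
  let a : W1 → Fin m → W1 := fun α i => (S (g α).1).orderEmbOfFin (hm α) i
  obtain ⟨α, β, hαβ, h⟩ := hg m a (fun α => (Finset.orderEmbOfFin _ _).strictMono)
  refine ⟨(g α).1, (g β).1, ?_, ?_⟩
  · intro hcon
    exact hαβ.ne (hginj (Subtype.ext hcon))
  · intro k
    have hlt : p k < m :=
      calc p k = (pos (g α).1 k : ℕ) := (hp α k).symm
        _ < (S (g α).1).card := (pos (g α).1 k).2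
        _ = m := hm α
    have h1 := h ⟨p k, hlt⟩
    have e1 : a α ⟨p k, hlt⟩ = ξ (g α).1 k := by
      rw [← hpos' (g α).1 k]
      exact (emb_eq _ (hm α) (pos (g α).1 k) ⟨p k, hlt⟩ (hp α k)).symm
    have e2 : a β ⟨p k, hlt⟩ = ξ (g β).1 k := by
      rw [← hpos' (g β).1 k]
      exact (emb_eq _ (hm β) (pos (g β).1 k) ⟨p k, hlt⟩ (hp β k)).symm
    rw [e1, e2, hξ, hξ] at h1
    exact h1

/-- rational translates of an increasing set form an increasing set -/
def AddRat (B : Set ℝ) : Set ℝ := {x | ∃ b ∈ B, ∃ q : ℚ, x = b + q}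

lemma Incr.addRat {B : Set ℝ} (hB : Incr B) : Incr (AddRat B) := by
  intro J _ n t ht
  choose b hb q hq using ht
  obtain ⟨c, hc⟩ := pigeon q
  obtain ⟨i, j, hij, h⟩ := hB (q ⁻¹' {c}) n (fun j k => b j.1 k) (fun j k => hb j.1 k)
  refine ⟨i.1, j.1, fun hcon => hij (Subtype.ext hcon), fun k => ?_⟩
  have e1 : q i.1 = c := i.2
  have e2 : q j.1 = c := j.2
  rw [hq, hq, e1, e2]
  linarith [h k]

/-- an increasing set admits no decreasing functions with uncountable domain -/
lemma Incr.no_decreasing {B : Set ℝ} (hB : Incr B) {S : Set ℝ} (hS : ¬ S.Countable)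
    (f g : ℝ → ℝ) (hf : ∀ s ∈ S, f s ∈ B) (hg : ∀ s ∈ S, g s ∈ B)
    (hfg : ∀ s ∈ S, ∀ s' ∈ S, s < s' → f s < f s' ∧ g s' < g s) : False := by
  have : Uncountable S := by
    rw [← not_countable_iff]
    exact hS
  obtain ⟨i, j, hij, h⟩ := hB S 2 (fun s => ![f s, g s]) (by
    intro s k
    fin_cases k
    · simpa using hf s s.2
    · simpa using hg s s.2)
  have h0 := h 0
  have h1 := h 1
  simp only [Matrix.cons_val_zero, Matrix.cons_val_one] at h0 h1
  rcases lt_trichotomy (i : ℝ) j with hlt | heq | hgt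
  · have := (hfg i i.2 j j.2 hlt).2
    linarith
  · exact hij (Subtype.ext heq)
  · have := (hfg j j.2 i i.2 hgt).1
    linarith

lemma neg_addRat {B : Set ℝ} {x : ℝ} (q : ℚ) (hx : x ∈ AddRat B) : -(q - x) ∈ AddRat B := by
  obtain ⟨b, hb, p, rfl⟩ := hx
  exact ⟨b, hb, p - q, by push_cast; ring⟩

/-- the glued set -/
def Glue (B : Set ℝ) : Set ℝ :=
  {x | (x < 0 ∧ x ∈ AddRat B) ∨ (0 < x ∧ (x ∈ AddRat B ∨ -x ∈ AddRat B))}

/-- `AddRat B` is uncountable in every interval -/
lemma addRat_unc {B : Set ℝ} (hB : ¬ B.Countable) {a b : ℝ} (hab : a < b) :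
    ¬ (AddRat B ∩ Ioo a b).Countable := by
  intro hc
  apply hB
  have : (⋃ q : ℚ, (fun x : ℝ => x - q) '' (AddRat B ∩ Ioo a b)).Countable :=
    countable_iUnion fun q => hc.image _
  refine this.mono ?_
  intro x hx
  obtain ⟨q, hq1, hq2⟩ := exists_rat_btwn (show a - x < b - x by linarith)
  refine mem_iUnion.2 ⟨q, x + q, ⟨⟨x, hx, q, rfl⟩, by linarith, by linarith⟩, by simp⟩

lemma mk_addRat_le {B : Set ℝ} (hB : Cardinal.mk B = Cardinal.aleph 1) :
    Cardinal.mk (AddRat B) ≤ Cardinal.aleph 1 := by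
  have h1 : AddRat B ⊆ range fun z : B × ℚ => (z.1 : ℝ) + z.2 := by
    rintro x ⟨b, hb, q, rfl⟩
    exact ⟨(⟨b, hb⟩, q), rfl⟩
  calc Cardinal.mk (AddRat B) ≤ Cardinal.mk (range fun z : B × ℚ => (z.1 : ℝ) + z.2) :=
        Cardinal.mk_le_mk_of_subset h1
    _ ≤ Cardinal.mk (B × ℚ) := Cardinal.mk_range_le
    _ = Cardinal.aleph 1 := by
        rw [Cardinal.mk_prod, hB]
        simp

lemma mk_glue_le {B : Set ℝ} (hB : Cardinal.mk B = Cardinal.aleph 1) :
    Cardinal.mk (Glue B) ≤ Cardinal.aleph 1 := by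
  have h1 : Glue B ⊆ AddRat B ∪ (fun x => -x) '' AddRat B := by
    rintro x (⟨_, hx⟩ | ⟨_, hx | hx⟩)
    · exact Or.inl hx
    · exact Or.inl hx
    · exact Or.inr ⟨-x, hx, by simp⟩
  calc Cardinal.mk (Glue B) ≤ Cardinal.mk (AddRat B ∪ (fun x => -x) '' AddRat B : Set ℝ) :=
        Cardinal.mk_le_mk_of_subset h1
    _ ≤ Cardinal.mk (AddRat B) + Cardinal.mk ((fun x => -x) '' AddRat B) := Cardinal.mk_union_le _ _
    _ ≤ Cardinal.aleph 1 + Cardinal.aleph 1 :=
        add_le_add (mk_addRat_le hB) (Cardinal.mk_image_le.trans (mk_addRat_le hB))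
    _ = Cardinal.aleph 1 := Cardinal.add_eq_self (Cardinal.aleph0_le_aleph 1)

/-- the glued set has exactly `ℵ₁` points in every nonempty open set -/
lemma glue_dense {B : Set ℝ} (hB : Cardinal.mk B = Cardinal.aleph 1) (U : Set ℝ) (hU : IsOpen U)
    (hne : U.Nonempty) : Cardinal.mk (Glue B ∩ U : Set ℝ) = Cardinal.aleph 1 := by
  apply le_antisymm
  · exact (Cardinal.mk_le_mk_of_subset inter_subset_left).trans (mk_glue_le hB)
  · have hBunc : ¬ B.Countable := by
      rw [← Cardinal.le_aleph0_iff_set_countable, hB, not_le]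
      exact Cardinal.aleph0_lt_aleph_one
    -- an interval inside `U` which misses `0`
    obtain ⟨a, b, hab, hsub, h0⟩ : ∃ a b : ℝ, a < b ∧ Ioo a b ⊆ U ∧ (b ≤ 0 ∨ 0 ≤ a) := by
      obtain ⟨x, hx⟩ := hne
      obtain ⟨ε, hε, hball⟩ := Metric.isOpen_iff.1 hU x hx
      rw [Real.ball_eq_Ioo] at hball
      rcases le_or_gt x 0 with h | h
      · exact ⟨x - ε, x, by linarith, (Ioo_subset_Ioo_right (by linarith)).trans hball, Or.inl h⟩
      · exact ⟨x, x + ε, by linarith, (Ioo_subset_Ioo_left (by linarith)).trans hball,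
          Or.inr h.le⟩
    have hunc := addRat_unc hBunc hab
    have hsub2 : AddRat B ∩ Ioo a b ⊆ Glue B ∩ U := by
      rintro x ⟨hx, hx1, hx2⟩
      refine ⟨?_, hsub ⟨hx1, hx2⟩⟩
      rcases h0 with h0 | h0
      · exact Or.inl ⟨by linarith, hx⟩
      · exact Or.inr ⟨by linarith, Or.inl hx⟩
    have : ¬ (Glue B ∩ U).Countable := fun h => hunc (h.mono hsub2)
    rw [← Cardinal.le_aleph0_iff_set_countable, not_le] at this
    rw [← Cardinal.succ_aleph0]
    exact Order.succ_le_of_lt this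

/-- the glued set is not increasing -/
lemma glue_not_incr {B : Set ℝ} (hB : ¬ B.Countable) : ¬ Incr (Glue B) := by
  intro h
  refine h.no_decreasing (addRat_unc hB (show (0 : ℝ) < 1 by norm_num)) (fun s => s)
    (fun s => 1 - s) ?_ ?_ ?_
  · rintro s ⟨hs, hs1, hs2⟩
    exact Or.inr ⟨hs1, Or.inl hs⟩
  · rintro s ⟨hs, hs1, hs2⟩
    refine Or.inr ⟨by linarith, Or.inr ?_⟩
    have := neg_addRat 1 hs
    simpa using this
  · rintro s ⟨hs, hs1, hs2⟩ s' ⟨hs', hs1', hs2'⟩ hlt
    exact ⟨hlt, by linarith⟩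

/-- the glued set is not reversible -/
lemma glue_not_reversible {B : Set ℝ} (hBc : ¬ B.Countable) (hB : Incr B) :
    ¬ Reversible (Glue B) := by
  classical
  rintro ⟨φ⟩
  have hB' := hB.addRat
  -- the decreasing bijection
  have hval : ∀ x : Glue B, -((φ x : {x : ℝ | ∃ r ∈ Glue B, x = -r}) : ℝ) ∈ Glue B := by
    intro x
    obtain ⟨r, hr, hxr⟩ := (φ x).2
    rw [hxr, neg_neg]; exact hr
  let f : Glue B → ℝ := fun x => -(φ x : ℝ)
  have hfmem : ∀ x, f x ∈ Glue B := hval
  have hfanti : ∀ x y : Glue B, (x : ℝ) < y → f y < f x := by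
    intro x y hxy
    have h1 : φ x < φ y := φ.strictMono hxy
    have h2 : (φ x : ℝ) < φ y := h1
    simp only [f]; linarith
  have hfinv : ∀ z ∈ Glue B, ∃ x : Glue B, f x = z := by
    intro z hz
    refine ⟨φ.symm ⟨-z, z, hz, rfl⟩, ?_⟩
    simp [f]
  have hneg : ∀ x ∈ Glue B, x < 0 → x ∈ AddRat B := by
    rintro x (⟨_, hx⟩ | ⟨hx0, _⟩) h0
    · exact hx
    · exact absurd h0 (not_lt.2 hx0.le)
  -- case (i): many negative points with negative image
  let S : Set ℝ := {x | ∃ h : x ∈ Glue B, x < 0 ∧ f ⟨x, h⟩ < 0}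
  have hS : S.Countable := by
    by_contra hS
    let g : ℝ → ℝ := fun x => if h : x ∈ Glue B then f ⟨x, h⟩ else 0
    refine hB'.no_decreasing hS (fun s => s) g ?_ ?_ ?_
    · rintro s ⟨h, h1, h2⟩
      exact hneg s h h1
    · rintro s ⟨h, h1, h2⟩
      simp only [g, dif_pos h]
      exact hneg _ (hfmem _) h2
    · rintro s ⟨h, h1, h2⟩ s' ⟨h', h1', h2'⟩ hlt
      refine ⟨hlt, ?_⟩
      simp only [g, dif_pos h, dif_pos h']
      exact hfanti ⟨s, h⟩ ⟨s', h'⟩ hlt
  -- two negative points with positive image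
  have hne0 : ∀ x ∈ Glue B, x ≠ 0 := by
    rintro x (⟨h, _⟩ | ⟨h, _⟩)
    · exact h.ne
    · exact h.ne'
  have hpt : ∀ a b : ℝ, a < b → b ≤ 0 → ∃ x : Glue B, a < x ∧ (x : ℝ) < b ∧ 0 < f x := by
    intro a b hab hb
    by_contra hcon
    push Not at hcon
    apply addRat_unc hBc hab
    refine hS.mono ?_
    rintro x ⟨hx, hx1, hx2⟩
    have hxG : x ∈ Glue B := Or.inl ⟨by linarith, hx⟩
    refine ⟨hxG, by linarith, ?_⟩
    exact lt_of_le_of_ne (hcon ⟨x, hxG⟩ hx1 hx2) (hne0 _ (hfmem _))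
  obtain ⟨x₁, _, hx₁, hfx₁⟩ := hpt (-2) (-1) (by norm_num) (by norm_num)
  obtain ⟨x₂, hx₂', hx₂, hfx₂⟩ := hpt (-1) 0 (by norm_num) (by norm_num)
  have hlt : (x₁ : ℝ) < x₂ := by linarith
  have hflt := hfanti _ _ hlt
  -- points between `f x₂` and `f x₁` come from negative points
  have : Nonempty (Glue B) := ⟨x₁⟩
  choose! inv hinv using hfinv
  have hback : ∀ z ∈ Glue B, f x₂ < z → z < f x₁ → (inv z : ℝ) ∈ AddRat B := by
    intro z hz h1 h2
    apply hneg _ (inv z).2
    by_contra hcon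
    have h3 : (x₂ : ℝ) < inv z := by linarith
    have h4 := hfanti _ _ h3
    rw [hinv z hz] at h4
    linarith
  have hinvanti : ∀ z ∈ Glue B, ∀ z' ∈ Glue B, z < z' → (inv z' : ℝ) < inv z := by
    intro z hz z' hz' hzz
    by_contra hcon
    rcases (not_lt.1 hcon).eq_or_lt with h | h
    · have h1 : inv z = inv z' := Subtype.ext h
      have h2 := hinv z hz
      rw [h1, hinv z' hz'] at h2
      linarith
    · have h1 := hfanti _ _ h
      rw [hinv z hz, hinv z' hz'] at h1
      linarith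
  -- a rational centre of symmetry
  obtain ⟨q, hq1, hq2⟩ := exists_rat_btwn (show f x₂ + f x₂ < f x₁ + f x₁ by linarith)
  -- an interval around `q / 2` symmetric with respect to `q / 2`
  set δ := min ((q : ℝ) / 2 - f x₂) (f x₁ - (q : ℝ) / 2) with hδ
  have hδpos : 0 < δ := lt_min (by linarith) (by linarith)
  have hδ1 : δ ≤ (q : ℝ) / 2 - f x₂ := min_le_left _ _
  have hδ2 : δ ≤ f x₁ - (q : ℝ) / 2 := min_le_right _ _
  have hmem1 : ∀ s ∈ AddRat B ∩ Ioo ((q : ℝ) / 2 - δ) (q / 2 + δ), s ∈ Glue B := by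
    rintro s ⟨hs, hs1, hs2⟩
    exact Or.inr ⟨by linarith, Or.inl hs⟩
  have hmem2 : ∀ s ∈ AddRat B ∩ Ioo ((q : ℝ) / 2 - δ) (q / 2 + δ), (q - s : ℝ) ∈ Glue B := by
    rintro s ⟨hs, hs1, hs2⟩
    exact Or.inr ⟨by linarith, Or.inr (neg_addRat q hs)⟩
  refine hB'.no_decreasing (addRat_unc hBc (show (q : ℝ) / 2 - δ < q / 2 + δ by linarith))
    (fun s => (inv (q - s) : ℝ)) (fun s => (inv s : ℝ)) ?_ ?_ ?_
  · intro s hs
    exact hback _ (hmem2 s hs) (by linarith [hs.2.1, hs.2.2]) (by linarith [hs.2.1, hs.2.2])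
  · intro s hs
    exact hback _ (hmem1 s hs) (by linarith [hs.2.1, hs.2.2]) (by linarith [hs.2.1, hs.2.2])
  · intro s hs s' hs' hlt
    exact ⟨hinvanti _ (hmem2 s' hs') _ (hmem2 s hs) (by linarith),
      hinvanti _ (hmem1 s hs) _ (hmem1 s' hs') hlt⟩

/-- **Main theorem** (in ZFC): if there is a good set of reals, then there is a set of reals,
with exactly `ℵ₁` points in every nonempty open set (in particular an `ℵ₁`-dense one), which is
neither reversible nor good. -/
theorem result : (∃ B : Set ℝ, Good B) →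
    ∃ A : Set ℝ, AlephOneDense A ∧
      (∀ U : Set ℝ, IsOpen U → U.Nonempty → Cardinal.mk (A ∩ U : Set ℝ) = Cardinal.aleph 1) ∧
      ¬ Reversible A ∧ ¬ Good A := by
  rintro ⟨B, hB⟩
  have hcard : Cardinal.mk B = Cardinal.aleph 1 := by
    obtain ⟨r, hr, hrange, _⟩ := hB
    rw [← hrange, Cardinal.mk_range_eq r hr, W1_card]
  have hBc : ¬ B.Countable := by
    rw [← Cardinal.le_aleph0_iff_set_countable, hcard, not_le]
    exact Cardinal.aleph0_lt_aleph_one
  refine ⟨Glue B, ?_, fun U hU hne => glue_dense hcard U hU hne,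
    glue_not_reversible hBc hB.incr, fun h => glue_not_incr hBc h.incr⟩
  intro a _ b _ hab
  have h := glue_dense hcard (Ioo a b) isOpen_Ioo (nonempty_Ioo.2 hab)
  exact h

end Pool.Agent.Results.MP_50136b_lc.NeitherReversibleNorGood
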